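import Pool.Agent.W2helper43.BD.Stm

/-! Project BD, piece MCAT. -/

open CategoryTheory Pool.Agent.W2helper43.BD

namespace Pool.Agent.W2helper51.BD

theorem p_mcat : P_MCAT := by
  refine ⟨?_, ?_⟩
  · intro A B _ _ e
    exact ⟨ModuleCat.restrictScalarsEquivalenceOfRingEquiv e.symm⟩
  · intro A X _ _ _ hX
    obtain ⟨i⟩ := hX
    exact ⟨(ModuleCat.matrixEquivalence A i).symm⟩

end Pool.Agent.W2helper51.BD
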